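import Pool.Agent.Helper13.LT.Loc

/-!
# Kite complexes: local structure of the lower neighbours, no infinite horizontal chains (row M2a)
-/

set_option autoImplicit false

namespace Pool.Agent.Helper13.LT

open Relation

variable {V P : Type} {I : P → V → Prop} {κ : V → Bool} {v₀ : V} {ℓ : V → ℕ} {gt : P → V}

section defs

variable (I κ gt)

/-- The gate of the panel `p` is a neighbour of the vertex `v` of `p`. -/
def MidA (v : V) (p : P) : Prop := I p v ∧ κ (gt p) ≠ κ v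

/-- The panels `a` and `b` hang on the two low panels of the residue `v`. -/
def HzA (a : P) (v : V) (b : P) : Prop :=
  κ v = true ∧ ∃ p q, p ≠ q ∧ Low I κ gt v p ∧ Low I κ gt v q ∧ MidA I κ gt v a ∧ I p (gt a) ∧
    MidA I κ gt v b ∧ I q (gt b)

end defs

theorem bool_eq63 {a b c : Bool} (h : a ≠ b) (h' : c ≠ b) : a = c := by
  revert h h'
  cases a <;> cases b <;> cases c <;> simp

theorem bool_false {a b : Bool} (h : a ≠ b) (hb : b = true) : a = false := by
  subst hb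
  simpa using h

theorem bool_true {a b : Bool} (h : a ≠ b) (hb : b = false) : a = true := by
  subst hb
  simpa using h

theorem bool_ne {a b : Bool} (ha : a = true) (hb : b = false) : a ≠ b := by
  rw [ha, hb]
  decide

theorem bool_ne' {a b : Bool} (ha : a = false) (hb : b = true) : a ≠ b := by
  rw [ha, hb]
  decide

/-! ### Levels -/

theorem Lev.gt_mem (hL : Lev I κ v₀ ℓ gt) {x : P} {v : V} (hv : I x v) : I x (gt x) :=
  (hL.gate x v hv).1

theorem Lev.mid_lvl (hL : Lev I κ v₀ ℓ gt) {x : P} {v : V} (h : MidA I κ gt v x) :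
    ℓ v = ℓ (gt x) + 1 := by
  obtain ⟨-, h1 | h1 | h1⟩ := hL.gate x v h.1
  · exact absurd (congrArg κ h1).symm h.2
  · exact h1.2
  · exact absurd h1.1.symm h.2

theorem Lev.mid_adj (hL : Lev I κ v₀ ℓ gt) {x : P} {v : V} (h : MidA I κ gt v x) :
    Ad I κ (gt x) v := ⟨h.2, x, hL.gt_mem h.1, h.1⟩

theorem Lev.low_lvl (hL : Lev I κ v₀ ℓ gt) {x : P} {v : V} (h : Low I κ gt v x) :
    ℓ v = ℓ (gt x) + 2 := by
  obtain ⟨-, h1 | h1 | h1⟩ := hL.gate x v h.1
  · exact absurd h1.symm h.2.1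
  · exact absurd h.2.2.symm h1.1
  · exact h1.2

/-- The level of a vertex opposite to the gate. -/
theorem Lev.opp_lvl (hL : Lev I κ v₀ ℓ gt) {x : P} {u : V} (hu : I x u) (h : κ u ≠ κ (gt x)) :
    ℓ u = ℓ (gt x) + 1 := by
  obtain ⟨-, h1 | h1 | h1⟩ := hL.gate x u hu
  · exact absurd (congrArg κ h1) h
  · exact h1.2
  · exact absurd h1.1 h

/-- (L3) All the opposite vertices on a low panel are lower neighbours. -/
theorem Lev.low_opp (hL : Lev I κ v₀ ℓ gt) {x : P} {u v : V} (h : Low I κ gt v x) (hu : I x u)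
    (hκ : κ u ≠ κ v) : ℓ v = ℓ u + 1 := by
  have h1 := hL.opp_lvl hu (by rw [h.2.2]; exact hκ)
  have h2 := hL.low_lvl h
  omega

/-- The gate of a low panel is a lower neighbour of the opposite vertices. -/
theorem Lev.low_gt (hL : Lev I κ v₀ ℓ gt) {x : P} {u v : V} (h : Low I κ gt v x) (hu : I x u)
    (hκ : κ u ≠ κ v) : Ad I κ (gt x) u ∧ ℓ u = ℓ (gt x) + 1 := by
  have h0 : κ u ≠ κ (gt x) := by rw [h.2.2]; exact hκ
  exact ⟨⟨h0.symm, x, hL.gt_mem hu, hu⟩, hL.opp_lvl hu h0⟩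

theorem Lev.low_adj {x : P} {u v : V} (h : Low I κ gt v x) (hu : I x u)
    (hκ : κ u ≠ κ v) : Ad I κ u v := ⟨hκ, x, hu, h.1⟩

/-- (L4) -/
theorem Lev.mid_or_low {x : P} {v : V} (hv : I x v) (hg : gt x ≠ v) :
    MidA I κ gt v x ∨ Low I κ gt v x := by
  by_cases h : κ (gt x) = κ v
  · exact Or.inr ⟨hv, hg, h⟩
  · exact Or.inl ⟨hv, h⟩

theorem Lev.adj (hL : Lev I κ v₀ ℓ gt) {u v : V} (h : Ad I κ u v) :
    ℓ u = ℓ v + 1 ∨ ℓ v = ℓ u + 1 := by
  obtain ⟨hκ, p, hu, hv⟩ := h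
  by_cases h1 : gt p = v
  · left
    rw [← h1]
    exact hL.opp_lvl hu (by rw [h1]; exact hκ)
  · rcases Lev.mid_or_low (κ := κ) hv h1 with h2 | h2
    · have h3 := hL.mid_lvl h2
      by_cases h4 : gt p = u
      · right
        rw [h3, h4]
      · rcases Lev.mid_or_low (κ := κ) hu h4 with h5 | h5
        · exact absurd (bool_eq63 hκ h2.2).symm h5.2
        · left
          have := hL.low_lvl h5
          omega
    · exact Or.inr (hL.low_opp h2 hu hκ)

/-- (L2) -/
theorem Lev.gt_or_low (hL : Lev I κ v₀ ℓ gt) {x : P} {u v : V} (hu : I x u) (hv : I x v)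
    (hκ : κ u ≠ κ v) (hl : ℓ u < ℓ v) : gt x = u ∨ Low I κ gt v x := by
  by_cases h1 : gt x = v
  · exfalso
    have := hL.opp_lvl hu (by rw [h1]; exact hκ)
    rw [h1] at this
    omega
  · rcases Lev.mid_or_low (κ := κ) hv h1 with h2 | h2
    · left
      by_contra h4
      rcases Lev.mid_or_low (κ := κ) hu h4 with h5 | h5
      · exact absurd (bool_eq63 hκ h2.2).symm h5.2
      · have := hL.low_lvl h5
        have := hL.mid_lvl h2
        omega
    · exact Or.inr h2

/-- The gate of a `MidA` panel is the only lower neighbour on it. -/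
theorem Lev.mid_eq (hL : Lev I κ v₀ ℓ gt) {x : P} {u v : V} (h : MidA I κ gt v x) (hu : I x u)
    (hκ : κ u ≠ κ v) (hl : ℓ u < ℓ v) : u = gt x := by
  rcases hL.gt_or_low hu h.1 hκ hl with h1 | h1
  · exact h1.symm
  · exact absurd h1.2.2 h.2

/-! ### Low panels -/

/-- Two panels at a residue `y` whose gates are neighbours of `y` are not both joined by chambers
to a panel with the gate `y`. -/
theorem fork (hK : KC I κ) (hL : Lev I κ v₀ ℓ gt) {y z u : V} {b q c : P} (hy : κ y = true)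
    (hb : MidA I κ gt y b) (hc : MidA I κ gt y c) (hqy : I q y) (hq : gt q = y) (hz : κ z = false)
    (hu : κ u = false) (i1 : I b z) (i2 : I q z) (i3 : I q u) (i4 : I c u) (hbc : b ≠ c) :
    False := by
  have kb : κ (gt b) = false := bool_false hb.2 hy
  have kc : κ (gt c) = false := bool_false hc.2 hy
  have hbq : b ≠ q := by
    rintro rfl
    rw [hq, hy] at kb
    exact absurd kb (by decide)
  have hcq : c ≠ q := by
    rintro rfl
    rw [hq, hy] at kc
    exact absurd kc (by decide)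
  have lowne : ∀ e d : P, Low I κ gt y e → MidA I κ gt y d → e ≠ d := by
    rintro e d he hd rfl
    exact hd.2 he.2.2
  have lowq : ∀ e : P, Low I κ gt y e → e ≠ q := by
    rintro e he rfl
    exact he.2.1 hq
  have g1 := hL.gt_mem hb.1
  have g2 := hL.gt_mem hc.1
  by_cases h : gt b = gt c
  · exact hK.n3 y b q c z u (gt b) hy hz hu kb hb.1 hqy hc.1 i1 i2 i3 i4 (h ▸ g2) g1 hbq hcq.symm
      hbc.symm
  · rcases hL.conf y (gt b) (gt c) (hL.mid_adj hb) (hL.mid_adj hc)
      (by have := hL.mid_lvl hb; omega) (by have := hL.mid_lvl hc; omega) h with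
      ⟨e, he, h1, h2⟩ | ⟨-, e, e', z', hee, he, he', h1, h2, h3, h4, h5⟩
    · rcases hK.n4 y b q c e z u (gt c) (gt b) hy hz hu kc kb hb.1 hqy hc.1 he.1 i1 i2 i3 i4 g2 h2
        h1 g1 hbq hcq.symm (lowne e c he hc).symm (lowne e b he hb) with h6 | h6
      · exact hbc h6
      · exact lowq e he h6.symm
    · exact hK.n5 y b q c e' e z u (gt c) z' (gt b) hy hz hu kc (bool_false h5 hy) kb hb.1 hqy hc.1
        he'.1 he.1 i1 i2 i3 i4 g2 h2 h4 h3 h1 g1 hbq hcq.symm (lowne e' c he' hc).symm hee.symm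
        (lowne e b he hb)

/-- Low panels at a chamber do not share residues. -/
theorem low_unique_aux (hK : KC I κ) (hL : Lev I κ v₀ ℓ gt) {v u : V} {p q : P}
    (hv : κ v = false) (hp : Low I κ gt v p) (hq : Low I κ gt v q) (hu : κ u = true) (i1 : I p u)
    (i2 : I q u) : p = q := by
  by_contra hpq
  have huv : κ u ≠ κ v := bool_ne hu hv
  have kp : κ (gt p) = false := by rw [hp.2.2, hv]
  have kq : κ (gt q) = false := by rw [hq.2.2, hv]
  obtain ⟨a1, l1⟩ := hL.low_gt hp i1 huv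
  obtain ⟨a2, l2⟩ := hL.low_gt hq i2 huv
  have g1 := hL.gt_mem hp.1
  have g2 := hL.gt_mem hq.1
  have lowne : ∀ e d : P, Low I κ gt u e → κ (gt d) = false → e ≠ d := by
    rintro e d he hd rfl
    rw [he.2.2, hu] at hd
    exact absurd hd (by decide)
  have hne : gt p ≠ gt q := by
    intro h
    exact hp.2.1 (hK.one p q u (gt p) v hpq i1 i2 (bool_ne' kp hu) huv.symm g1 (h ▸ g2) hp.1 hq.1)
  rcases hL.conf u (gt p) (gt q) a1 a2 (by omega) (by omega) hne with
    ⟨a, ha, h1, h2⟩ | ⟨-, a, b, c, hab, ha, hb, h1, h2, h3, h4, h5⟩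
  · exact hK.n3 u p q a v (gt q) (gt p) hu hv kq kp i1 i2 ha.1 hp.1 hq.1 g2 h2 h1 g1 hpq
      (lowne a q ha kq).symm (lowne a p ha kp)
  · rcases hK.n4 u p q b a v (gt q) c (gt p) hu hv kq (bool_false h5 hu) kp i1 i2 hb.1 ha.1 hp.1
      hq.1 g2 h2 h4 h3 h1 g1 hpq (lowne b q hb kq).symm hab.symm (lowne a p ha kp) with h6 | h6
    · exact lowne b p hb kp h6.symm
    · exact lowne a q ha kq h6.symm

/-- (L5) A chamber has at most one low panel. -/
theorem low_unique (hK : KC I κ) (hL : Lev I κ v₀ ℓ gt) {v : V} {p q : P} (hv : κ v = false)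
    (hp : Low I κ gt v p) (hq : Low I κ gt v q) : p = q := by
  obtain ⟨u, hu, ku⟩ := hK.opp p v hp.1
  obtain ⟨u', hu', ku'⟩ := hK.opp q v hq.1
  have hut : κ u = true := bool_true ku hv
  have hut' : κ u' = true := bool_true ku' hv
  by_cases h : u = u'
  · subst h
    exact low_unique_aux hK hL hv hp hq hut hu hu'
  · rcases hL.conf v u u' (Lev.low_adj hp hu ku) (Lev.low_adj hq hu' ku')
      (by have := hL.low_opp hp hu ku; omega) (by have := hL.low_opp hq hu' ku'; omega) h with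
      ⟨a, ha, h1, h2⟩ | ⟨h0, -⟩
    · exact (low_unique_aux hK hL hv hp ha hut hu h1).trans
        (low_unique_aux hK hL hv ha hq hut' h2 hu')
    · rw [hv] at h0
      exact absurd h0 (by decide)

/-- (L6) -/
theorem low_path (hK : KC I κ) (hL : Lev I κ v₀ ℓ gt) {v u u' : V} {p p' q : P}
    (hv : κ v = true) (hp : Low I κ gt v p) (hp' : Low I κ gt v p') (hq : Low I κ gt v q)
    (h1 : p ≠ p') (h2 : p' ≠ q) (h3 : p ≠ q) (hu : κ u = false) (hu' : κ u' = false)
    (i1 : I p u) (i2 : I p' u) (i3 : I p' u') (i4 : I q u') : False := by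
  have huv : κ u ≠ κ v := bool_ne' hu hv
  have huv' : κ u' ≠ κ v := bool_ne' hu' hv
  have kp : κ (gt p) = true := by rw [hp.2.2, hv]
  have kp' : κ (gt p') = true := by rw [hp'.2.2, hv]
  have kq : κ (gt q) = true := by rw [hq.2.2, hv]
  have hne : u ≠ u' := by
    rintro rfl
    rcases hK.le_two p p' q u v huv i1 hp.1 i2 hp'.1 i4 hq.1 with h | h | h
    · exact h1 h
    · exact h3 h
    · exact h2 h
  have gp := hL.gt_mem hp.1
  have gp' := hL.gt_mem hp'.1
  have gq := hL.gt_mem hq.1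
  have hxy : gt p ≠ gt p' := by
    intro h
    exact hp.2.1 (hK.one p p' u (gt p) v h1 i1 i2 (bool_ne kp hu) huv.symm gp (h ▸ gp') hp.1 hp'.1)
  have hyw : gt p' ≠ gt q := by
    intro h
    exact hq.2.1 (hK.one p' q u' (gt q) v h2 i3 i4 (bool_ne kq hu') huv'.symm (h ▸ gp') gq hp'.1
      hq.1)
  obtain ⟨a1, l1⟩ := hL.low_gt hp i1 huv
  obtain ⟨a2, l2⟩ := hL.low_gt hp' i2 huv
  obtain ⟨a3, l3⟩ := hL.low_gt hp' i3 huv'
  obtain ⟨a4, l4⟩ := hL.low_gt hq i4 huv'
  obtain ⟨a, ha, j1, j2⟩ : ∃ a, Low I κ gt u a ∧ I a (gt p) ∧ I a (gt p') := by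
    rcases hL.conf u (gt p) (gt p') a1 a2 (by omega) (by omega) hxy with h | ⟨h0, -⟩
    · exact h
    · rw [hu] at h0
      exact absurd h0 (by decide)
  obtain ⟨b, hb, j3, j4⟩ : ∃ b, Low I κ gt u' b ∧ I b (gt p') ∧ I b (gt q) := by
    rcases hL.conf u' (gt p') (gt q) a3 a4 (by omega) (by omega) hyw with h | ⟨h0, -⟩
    · exact h
    · rw [hu'] at h0
      exact absurd h0 (by decide)
  have ka : κ (gt a) = false := by rw [ha.2.2, hu]
  have kb : κ (gt b) = false := by rw [hb.2.2, hu']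
  have hap : a ≠ p' := by
    rintro rfl
    rw [ka] at kp'
    exact absurd kp' (by decide)
  have hab : a ≠ b := by
    rintro rfl
    exact hne (hK.one a p' (gt p') u u' hap j2 gp' (bool_ne' hu kp') (bool_ne' hu' kp') ha.1 i2
      hb.1 i3)
  exact fork hK hL kp' ⟨j2, bool_ne' ka kp'⟩ ⟨j3, bool_ne' kb kp'⟩ gp' rfl hu hu' ha.1 i2 i3 hb.1
    hab

/-- (L7) Two low panels share a chamber. -/
theorem low_share (hK : KC I κ) (hL : Lev I κ v₀ ℓ gt) {v : V} {p q : P} (hpq : p ≠ q)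
    (hp : Low I κ gt v p) (hq : Low I κ gt v q) :
    κ v = true ∧ ∃ z, κ z = false ∧ I p z ∧ I q z := by
  have hv : κ v = true := by
    by_contra h
    rw [Bool.not_eq_true] at h
    exact hpq (low_unique hK hL h hp hq)
  refine ⟨hv, ?_⟩
  obtain ⟨u, hu, ku⟩ := hK.opp p v hp.1
  obtain ⟨u', hu', ku'⟩ := hK.opp q v hq.1
  have hut : κ u = false := bool_false ku hv
  have hut' : κ u' = false := bool_false ku' hv
  by_cases h : u = u'
  · subst h
    exact ⟨u, hut, hu, hu'⟩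
  · rcases hL.conf v u u' (Lev.low_adj hp hu ku) (Lev.low_adj hq hu' ku')
      (by have := hL.low_opp hp hu ku; omega) (by have := hL.low_opp hq hu' ku'; omega) h with
      ⟨x, hx, h1, h2⟩ | ⟨-, a, b, z, hab, ha, hb, h1, h2, h3, h4, h5⟩
    · by_cases hxp : x = p
      · subst hxp
        exact ⟨u', hut', h2, hu'⟩
      by_cases hxq : x = q
      · subst hxq
        exact ⟨u, hut, hu, h1⟩
      exact (low_path hK hL hv hp hx hq (Ne.symm hxp) hxq hpq hut hut' hu h1 h2 hu').elim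
    · have hz : κ z = false := bool_false h5 hv
      by_cases haq : a = q
      · subst haq
        exact ⟨u, hut, hu, h1⟩
      by_cases hbp : b = p
      · subst hbp
        exact ⟨u', hut', h2, hu'⟩
      by_cases hap : a = p
      · subst hap
        by_cases hbq : b = q
        · subst hbq
          exact ⟨z, hz, h3, h4⟩
        · exact (low_path hK hL hv hp hb hq hab hbq hpq hz hut' h3 h4 h2 hu').elim
      · exact (low_path hK hL hv hp ha hb (Ne.symm hap) hab (Ne.symm hbp) hut hz hu h1 h3 h4).elim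

/-- (L7) There are at most two low panels. -/
theorem low_two (hK : KC I κ) (hL : Lev I κ v₀ ℓ gt) {v : V} {p q x : P} (hpq : p ≠ q)
    (hp : Low I κ gt v p) (hq : Low I κ gt v q) (hx : Low I κ gt v x) : x = p ∨ x = q := by
  by_contra h
  rw [not_or] at h
  obtain ⟨hv, z, hz, i1, i2⟩ := low_share hK hL hpq hp hq
  obtain ⟨-, z', hz', i3, i4⟩ := low_share hK hL (Ne.symm h.2) hq hx
  exact low_path hK hL hv hp hq hx hpq (Ne.symm h.2) (Ne.symm h.1) hz hz' i1 i2 i3 i4

/-- (L8) -/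
theorem down_none (hL : Lev I κ v₀ ℓ gt) {u u' v : V}
    (h : ∀ p, ¬ Low I κ gt v p) (hu : Ad I κ u v) (hu' : Ad I κ u' v) (hl : ℓ u < ℓ v)
    (hl' : ℓ u' < ℓ v) : u = u' := by
  by_contra hne
  rcases hL.conf v u u' hu hu' hl hl' hne with ⟨x, hx, -⟩ | ⟨-, a, b, z, -, ha, -⟩
  · exact h x hx
  · exact h a ha

/-- (L8) -/
theorem down_one (hK : KC I κ) (hL : Lev I κ v₀ ℓ gt) {u v : V} {p : P} (hp : Low I κ gt v p)
    (h : ∀ q, Low I κ gt v q → q = p) (hu : Ad I κ u v) (hl : ℓ u < ℓ v) : I p u := by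
  obtain ⟨w, hw, kw⟩ := hK.opp p v hp.1
  by_cases huw : u = w
  · rw [huw]
    exact hw
  rcases hL.conf v u w hu (Lev.low_adj hp hw kw) hl (by have := hL.low_opp hp hw kw; omega) huw with
    ⟨x, hx, h1, h2⟩ | ⟨-, a, b, z, hab, ha, hb, -⟩
  · rw [← h x hx]
    exact h1
  · exact absurd ((h a ha).trans (h b hb).symm) hab

/-- (L8) -/
theorem down_two (hK : KC I κ) (hL : Lev I κ v₀ ℓ gt) {u v : V} {p q : P} (hpq : p ≠ q)
    (hp : Low I κ gt v p) (hq : Low I κ gt v q) (hu : Ad I κ u v) (hl : ℓ u < ℓ v) :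
    I p u ∨ I q u := by
  obtain ⟨w, hw, kw⟩ := hK.opp p v hp.1
  by_cases huw : u = w
  · rw [huw]
    exact Or.inl hw
  rcases hL.conf v u w hu (Lev.low_adj hp hw kw) hl (by have := hL.low_opp hp hw kw; omega) huw with
    ⟨x, hx, h1, h2⟩ | ⟨-, a, b, z, hab, ha, hb, h1, -⟩
  · rcases low_two hK hL hpq hp hq hx with rfl | rfl
    · exact Or.inl h1
    · exact Or.inr h1
  · rcases low_two hK hL hpq hp hq ha with rfl | rfl
    · exact Or.inl h1
    · exact Or.inr h1

/-! ### Horizontal chains -/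

theorem HzA.symm {a b : P} {v : V} (h : HzA I κ gt a v b) : HzA I κ gt b v a := by
  obtain ⟨hv, p, q, hpq, hp, hq, ha, h1, hb, h2⟩ := h
  exact ⟨hv, q, p, hpq.symm, hq, hp, hb, h2, ha, h1⟩

/-- The next level of a horizontal chain. -/
theorem chain_down (hK : KC I κ) (hL : Lev I κ v₀ ℓ gt) {a : ℕ → P} {v : ℕ → V}
    (h : ∀ i, HzA I κ gt (a i) (v i) (a (i + 1)) ∧ v i ≠ v (i + 1)) :
    ∃ (b : ℕ → P) (y : ℕ → V), (∀ i, HzA I κ gt (b i) (y i) (b (i + 1)) ∧ y i ≠ y (i + 1)) ∧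
      ℓ (y 0) < ℓ (v 0) := by
  have hv : ∀ i, κ (v i) = true := fun i => (h i).1.1
  have hex : ∀ i, ∃ p q : P, p ≠ q ∧ Low I κ gt (v i) p ∧ Low I κ gt (v i) q ∧
      MidA I κ gt (v i) (a i) ∧ I p (gt (a i)) ∧ MidA I κ gt (v i) (a (i + 1)) ∧
      I q (gt (a (i + 1))) := fun i => (h i).1.2
  choose p q hpq hp hq ha h1 ha' h2 using hex
  have hex2 : ∀ i, ∃ z, κ z = false ∧ I (p i) z ∧ I (q i) z := fun i =>
    (low_share hK hL (hpq i) (hp i) (hq i)).2
  choose z hz hpz hqz using hex2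
  have kp : ∀ i, κ (gt (p i)) = true := fun i => by rw [(hp i).2.2, hv i]
  have kq : ∀ i, κ (gt (q i)) = true := fun i => by rw [(hq i).2.2, hv i]
  have gp : ∀ i, I (p i) (gt (p i)) := fun i => hL.gt_mem (hp i).1
  have gq : ∀ i, I (q i) (gt (q i)) := fun i => hL.gt_mem (hq i).1
  have hzv : ∀ i, κ (z i) ≠ κ (v i) := fun i => bool_ne' (hz i) (hv i)
  have hxy : ∀ i, gt (p i) ≠ gt (q i) := by
    intro i hi
    exact (hp i).2.1 (hK.one (p i) (q i) (z i) (gt (p i)) (v i) (hpq i) (hpz i) (hqz i)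
      (bool_ne (kp i) (hz i)) (hzv i).symm (gp i) (hi ▸ gq i) (hp i).1 (hq i).1)
  have hex3 : ∀ i, ∃ b, Low I κ gt (z i) b ∧ I b (gt (p i)) ∧ I b (gt (q i)) := by
    intro i
    obtain ⟨a1, l1⟩ := hL.low_gt (hp i) (hpz i) (hzv i)
    obtain ⟨a2, l2⟩ := hL.low_gt (hq i) (hqz i) (hzv i)
    rcases hL.conf (z i) (gt (p i)) (gt (q i)) a1 a2 (by omega) (by omega) (hxy i) with h | ⟨h0, -⟩
    · exact h
    · rw [hz i] at h0
      exact absurd h0 (by decide)
  choose b hb hbp hbq using hex3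
  have kb : ∀ i, κ (gt (b i)) = false := fun i => by rw [(hb i).2.2, hz i]
  have ku : ∀ i, κ (gt (a (i + 1))) = false := fun i => bool_false (ha' i).2 (hv i)
  have hu2 : ∀ i, I (p (i + 1)) (gt (a (i + 1))) := fun i => h1 (i + 1)
  have hua : ∀ i, I (a (i + 1)) (gt (a (i + 1))) := fun i => hL.gt_mem (ha' i).1
  have haq : ∀ i, a (i + 1) ≠ q i := by
    intro i hi
    have := ku i
    rw [hi, kq i] at this
    exact absurd this (by decide)
  have hap : ∀ i, a (i + 1) ≠ p i := by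
    intro i hi
    have := ku i
    rw [hi, kp i] at this
    exact absurd this (by decide)
  have hqp : ∀ i, q i ≠ p (i + 1) := by
    intro i hi
    refine (h i).2 (hK.one (a (i + 1)) (q i) (gt (a (i + 1))) (v i) (v (i + 1)) (haq i) (hua i)
      (h2 i) (bool_ne (hv i) (ku i)) (bool_ne (hv (i + 1)) (ku i)) (ha' i).1 (hq i).1
      (ha (i + 1)).1 ?_)
    rw [hi]
    exact (hp (i + 1)).1
  -- the claim
  have hyx : ∀ i, gt (q i) = gt (p (i + 1)) := by
    intro i
    by_contra hne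
    obtain ⟨a1, l1⟩ := hL.low_gt (hq i) (h2 i) (bool_ne' (ku i) (hv i))
    obtain ⟨a2, l2⟩ := hL.low_gt (hp (i + 1)) (hu2 i) (bool_ne' (ku i) (hv (i + 1)))
    obtain ⟨c, hc, j1, j2⟩ : ∃ c, Low I κ gt (gt (a (i + 1))) c ∧ I c (gt (q i)) ∧
        I c (gt (p (i + 1))) := by
      rcases hL.conf _ _ _ a1 a2 (by omega) (by omega) hne with h | ⟨h0, -⟩
      · exact h
      · rw [ku i] at h0
        exact absurd h0 (by decide)
    have kc : κ (gt c) = false := by rw [hc.2.2, ku i]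
    have hbq' : b i ≠ q i := by
      intro hi
      have := kb i
      rw [hi, kq i] at this
      exact absurd this (by decide)
    have hbc : b i ≠ c := by
      intro hi
      have e1 : z i = gt (a (i + 1)) := hK.one (b i) (q i) (gt (q i)) (z i) (gt (a (i + 1))) hbq'
        (hbq i) (gq i) (bool_ne' (hz i) (kq i)) (bool_ne' (ku i) (kq i)) (hb i).1 (hqz i)
        (by rw [hi]; exact hc.1) (h2 i)
      rcases hK.le_two (p i) (q i) (a (i + 1)) (z i) (v i) (hzv i) (hpz i) (hp i).1 (hqz i)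
        (hq i).1 (by rw [e1]; exact hua i) (ha' i).1 with h | h | h
      · exact hpq i h
      · exact hap i h.symm
      · exact haq i h.symm
    exact fork hK hL (kq i) ⟨hbq i, bool_ne' (kb i) (kq i)⟩ ⟨j1, bool_ne' kc (kq i)⟩ (gq i) rfl
      (hz i) (ku i) (hb i).1 (hqz i) (h2 i) hc.1 hbc
  refine ⟨b, fun i => gt (q i), fun i => ⟨?_, ?_⟩, ?_⟩
  · -- horizontal triple
    have hy := kq i
    have m1 : MidA I κ gt (gt (q i)) (b i) := ⟨hbq i, bool_ne' (kb i) (kq i)⟩
    have hb1 : I (b (i + 1)) (gt (q i)) := by rw [hyx i]; exact hbp (i + 1)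
    have m2 : MidA I κ gt (gt (q i)) (b (i + 1)) := ⟨hb1, bool_ne' (kb (i + 1)) (kq i)⟩
    have hp1 : I (p (i + 1)) (gt (q i)) := by rw [hyx i]; exact gp (i + 1)
    have lowne : ∀ e d : P, Low I κ gt (gt (q i)) e → κ (gt d) = false → e ≠ d := by
      rintro e d he hd rfl
      rw [he.2.2, kq i] at hd
      exact absurd hd (by decide)
    have ne1 : b i ≠ q i := by
      intro hi
      have := kb i
      rw [hi, kq i] at this
      exact absurd this (by decide)
    have ne2 : p (i + 1) ≠ b (i + 1) := by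
      intro hi
      have := kb (i + 1)
      rw [← hi, kp (i + 1)] at this
      exact absurd this (by decide)
    have ne3 : p (i + 1) ≠ b i := by
      intro hi
      have := kb i
      rw [← hi, kp (i + 1)] at this
      exact absurd this (by decide)
    have ne4 : q i ≠ b (i + 1) := by
      intro hi
      have := kb (i + 1)
      rw [← hi, kq i] at this
      exact absurd this (by decide)
    have g1 := hL.gt_mem (hbq i)
    have g2 := hL.gt_mem hb1
    by_cases hbb : b i = b (i + 1)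
    · exfalso
      refine hK.n3 (gt (q i)) (b i) (q i) (p (i + 1)) (z i) (gt (a (i + 1))) (z (i + 1)) hy (hz i)
        (ku i) (hz (i + 1)) (hbq i) (gq i) hp1 (hb i).1 (hqz i) (h2 i) (hu2 i) (hpz (i + 1)) ?_ ne1
        (hqp i) ne3
      rw [hbb]
      exact (hb (i + 1)).1
    by_cases hww : gt (b i) = gt (b (i + 1))
    · exfalso
      rcases hK.n4 (gt (q i)) (b i) (q i) (p (i + 1)) (b (i + 1)) (z i) (gt (a (i + 1)))
        (z (i + 1)) (gt (b i)) hy (hz i) (ku i) (hz (i + 1)) (kb i) (hbq i) (gq i) hp1 hb1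
        (hb i).1 (hqz i) (h2 i) (hu2 i) (hpz (i + 1)) (hb (i + 1)).1 (by rw [hww]; exact g2) g1
        ne1 (hqp i) ne2 (Ne.symm hbb) with h | h
      · exact ne3 h.symm
      · exact ne4 h
    rcases hL.conf (gt (q i)) (gt (b i)) (gt (b (i + 1))) (hL.mid_adj m1) (hL.mid_adj m2)
      (by have := hL.mid_lvl m1; omega) (by have := hL.mid_lvl m2; omega) hww with
      ⟨e, he, j1, j2⟩ | ⟨-, e, e', z', hee, he, he', j1, j2, j3, j4, j5⟩
    · exfalso
      exact hK.n5 (gt (q i)) (b i) (q i) (p (i + 1)) (b (i + 1)) e (z i) (gt (a (i + 1)))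
        (z (i + 1)) (gt (b (i + 1))) (gt (b i)) hy (hz i) (ku i) (hz (i + 1)) (kb (i + 1)) (kb i)
        (hbq i) (gq i) hp1 hb1 he.1 (hb i).1 (hqz i) (h2 i) (hu2 i) (hpz (i + 1)) (hb (i + 1)).1
        g2 j2 j1 g1 ne1 (hqp i) ne2 (lowne e _ he (kb (i + 1))).symm (lowne e _ he (kb i))
    · exact ⟨hy, e, e', hee, he, he', m1, j1, m2, j2⟩
  · show gt (q i) ≠ gt (q (i + 1))
    rw [hyx i]
    exact hxy (i + 1)
  · show ℓ (gt (q 0)) < ℓ (v 0)
    have := hL.low_lvl (hq 0)
    omega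

/-- There are no infinite horizontal chains. -/
theorem no_chain (hK : KC I κ) (hL : Lev I κ v₀ ℓ gt) :
    ¬ ∃ (a : ℕ → P) (v : ℕ → V), ∀ i, HzA I κ gt (a i) (v i) (a (i + 1)) ∧ v i ≠ v (i + 1) := by
  have key : ∀ (n : ℕ) (a : ℕ → P) (v : ℕ → V),
      (∀ i, HzA I κ gt (a i) (v i) (a (i + 1)) ∧ v i ≠ v (i + 1)) → ℓ (v 0) ≤ n → False := by
    intro n
    induction n with
    | zero =>
      intro a v h h0
      obtain ⟨b, y, -, h1⟩ := chain_down hK hL h
      omega
    | succ n ih =>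
      intro a v h h0
      obtain ⟨b, y, h2, h1⟩ := chain_down hK hL h
      exact ih b y h2 (by omega)
  rintro ⟨a, v, h⟩
  exact key (ℓ (v 0)) a v h le_rfl

/-! ### The interface -/

theorem midA_of {v : V} {x : P} (h : Mid I κ gt v x) : MidA I κ gt v x := ⟨h.1, h.2.2⟩

theorem hzA_of {a b : P} {v : V} (h : HzT I κ gt a v b) : HzA I κ gt a v b := by
  obtain ⟨hv, p, q, hpq, hp, hq, ha, hb, h1, h2⟩ := h
  exact ⟨hv, p, q, hpq, hp, hq, midA_of ha, h1, midA_of hb, h2⟩

/-- Every low neighbour lies on a low panel if there is one. -/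
theorem down_low (hK : KC I κ) (hL : Lev I κ v₀ ℓ gt) {u v : V} {p : P} (hp : Low I κ gt v p)
    (hu : Ad I κ u v) (hl : ℓ u < ℓ v) : ∃ q, Low I κ gt v q ∧ I q u := by
  by_cases h : ∀ q, Low I κ gt v q → q = p
  · exact ⟨p, hp, down_one hK hL hp h hu hl⟩
  · push Not at h
    obtain ⟨q, hq, hqp⟩ := h
    rcases down_two hK hL (Ne.symm hqp) hp hq hu hl with h1 | h1
    · exact ⟨p, hp, h1⟩
    · exact ⟨q, hq, h1⟩

/-- Row M2a: the local structure of the levels. -/
theorem loc (hK : KC I κ) (hL : Lev I κ v₀ ℓ gt) : Loc I κ ℓ gt where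
  dn_gt := fun _ _ _ h h1 h2 => hL.gt_or_low h1 h2 h.1.1 h.2
  dn_lev := by
    intro u v h
    rcases hL.adj h.1 with h1 | h1
    · have := h.2
      omega
    · exact h1.symm
  low_dn := by
    intro u v x h hu hk
    exact ⟨Lev.low_adj h hu hk, by have := hL.low_opp h hu hk; omega⟩
  low_ex := fun v x h => hK.opp x v h.1
  mid_dn := by
    intro v x h
    have h1 := midA_of h
    exact ⟨⟨hL.mid_adj h1, by have := hL.mid_lvl h1; omega⟩, hL.gt_mem h.1⟩
  low1 := fun _ _ _ hv hp hq => low_unique hK hL hv hp hq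
  low2 := by
    intro v p q hp hq hpq
    obtain ⟨hv, z, hz, h1, h2⟩ := low_share hK hL hpq hp hq
    exact ⟨z, h1, h2, bool_ne' hz hv⟩
  low3 := by
    intro v p q s hp hq hs
    by_cases hpq : p = q
    · exact Or.inl hpq
    · rcases low_two hK hL hpq hp hq hs with h | h
      · exact Or.inr (Or.inl h.symm)
      · exact Or.inr (Or.inr h.symm)
  dn_low := fun _ _ _ hp hu => down_low hK hL hp hu.1 hu.2
  dn_one := fun _ _ _ h hu hu' => down_none hL h hu.1 hu'.1 hu.2 hu'.2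
  chain := by
    rintro ⟨a, v, h⟩
    exact no_chain hK hL ⟨a, v, fun i => ⟨hzA_of (h i).1, (h i).2⟩⟩

end Pool.Agent.Helper13.LT
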